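import Pool.Agent.Helper79.GL4.GoalsA

/-!
# GL4: packet BR2 (MP_27a5f8_al)
-/

set_option linter.unusedVariables false

namespace GL4.H69

open Module Submodule MulAction

/-! ### Burnside -/

section burnside
variable {G : Type} [Group G] [Finite G]

theorem burnside (X : Type) [Finite X] [MulAction G X] [Fintype G] :
    ∑ g : G, Nat.card (fixedBy X g) = Nat.card (orbitRel.Quotient G X) * Nat.card G := by
  classical
  have : ∀ g : G, Fintype (fixedBy X g) := fun g => Fintype.ofFinite _
  have : Fintype (orbitRel.Quotient G X) := Fintype.ofFinite _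
  have h := sum_card_fixedBy_eq_card_orbits_mul_card_group G X
  simp only [Nat.card_eq_fintype_card]
  exact h

theorem card_fixedBy_prod (X Y : Type) [MulAction G X] [MulAction G Y] (g : G) :
    Nat.card (fixedBy (X × Y) g) = Nat.card (fixedBy X g) * Nat.card (fixedBy Y g) := by
  rw [← Nat.card_prod]
  refine Nat.card_congr
    { toFun := fun z => (⟨z.1.1, congrArg Prod.fst z.2⟩, ⟨z.1.2, congrArg Prod.snd z.2⟩)
      invFun := fun w => ⟨(w.1.1, w.2.1), Prod.ext w.1.2 w.2.2⟩
      left_inv := fun z => rfl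
      right_inv := fun w => rfl }

/-- equal permutation characters give equal numbers of orbits on products -/
theorem orb_prod_eq (X Y Z : Type) [Finite X] [Finite Y] [Finite Z] [MulAction G X] [MulAction G Y]
    [MulAction G Z] (h : ∀ g : G, Nat.card (fixedBy X g) = Nat.card (fixedBy Y g)) :
    Nat.card (orbitRel.Quotient G (Z × X)) = Nat.card (orbitRel.Quotient G (Z × Y)) := by
  classical
  have : Fintype G := Fintype.ofFinite G
  have h1 := burnside (G := G) (Z × X)
  have h2 := burnside (G := G) (Z × Y)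
  have h3 : ∑ g : G, Nat.card (fixedBy (Z × X) g) = ∑ g : G, Nat.card (fixedBy (Z × Y) g) :=
    Finset.sum_congr rfl fun g _ => by rw [card_fixedBy_prod, card_fixedBy_prod, h g]
  rw [h1, h2] at h3
  exact Nat.eq_of_mul_eq_mul_right Nat.card_pos h3

theorem orb_prod_eq' (X Y Z : Type) [Finite X] [Finite Y] [Finite Z] [MulAction G X] [MulAction G Y]
    [MulAction G Z] (h : ∀ g : G, Nat.card (fixedBy X g) = Nat.card (fixedBy Y g)) :
    Nat.card (orbitRel.Quotient G (X × Z)) = Nat.card (orbitRel.Quotient G (Y × Z)) := by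
  classical
  have : Fintype G := Fintype.ofFinite G
  have h1 := burnside (G := G) (X × Z)
  have h2 := burnside (G := G) (Y × Z)
  have h3 : ∑ g : G, Nat.card (fixedBy (X × Z) g) = ∑ g : G, Nat.card (fixedBy (Y × Z) g) :=
    Finset.sum_congr rfl fun g _ => by rw [card_fixedBy_prod, card_fixedBy_prod, h g]
  rw [h1, h2] at h3
  exact Nat.eq_of_mul_eq_mul_right Nat.card_pos h3

/-- at most two orbits: two elements of a proper invariant set are in the same orbit -/
theorem same_orbit {Z : Type} [Finite Z] [MulAction G Z]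
    (h2 : Nat.card (orbitRel.Quotient G Z) ≤ 2) (p : Z → Prop) (hp : ∀ (g : G) z, p z → p (g • z))
    {a b c : Z} (ha : p a) (hb : p b) (hc : ¬ p c) : ∃ g : G, g • a = b := by
  classical
  by_contra hcon
  have key : ∀ x y : Z, p x → ¬ p y →
      (Quotient.mk'' x : orbitRel.Quotient G Z) ≠ Quotient.mk'' y := by
    intro x y hx hy he
    have h := Quotient.exact he
    obtain ⟨g, hg⟩ : x ∈ MulAction.orbit G y := h
    apply hy
    have h3 : g⁻¹ • x = y := by rw [← hg]; simp
    rw [← h3]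
    exact hp _ _ hx
  have hab : (Quotient.mk'' a : orbitRel.Quotient G Z) ≠ Quotient.mk'' b := by
    intro he
    have h := Quotient.exact he.symm
    obtain ⟨g, hg⟩ : b ∈ MulAction.orbit G a := h
    exact hcon ⟨g, hg⟩
  have hac := key a c ha hc
  have hbc := key b c hb hc
  have : Fintype (orbitRel.Quotient G Z) := Fintype.ofFinite _
  rw [Nat.card_eq_fintype_card] at h2
  have h3 : 2 < Fintype.card (orbitRel.Quotient G Z) := by
    rw [Fintype.two_lt_card_iff]
    exact ⟨_, _, _, hab, hac, hbc⟩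
  omega

/-- at most two orbits -/
theorem orb_le_two {Z : Type} [Finite Z] [MulAction G Z] (p : Z → Prop)
    (h1 : ∀ a b, p a → p b → ∃ g : G, g • a = b)
    (h2 : ∀ a b, ¬ p a → ¬ p b → ∃ g : G, g • a = b) :
    Nat.card (orbitRel.Quotient G Z) ≤ 2 := by
  classical
  by_contra hcon
  push Not at hcon
  have : Fintype (orbitRel.Quotient G Z) := Fintype.ofFinite _
  rw [Nat.card_eq_fintype_card, Fintype.two_lt_card_iff] at hcon
  obtain ⟨a, b, c, hab, hac, hbc⟩ := hcon
  induction a using Quotient.inductionOn' with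
  | h a =>
  induction b using Quotient.inductionOn' with
  | h b =>
  induction c using Quotient.inductionOn' with
  | h c =>
  have key : ∀ x y : Z, (∃ g : G, g • x = y) →
      (Quotient.mk'' y : orbitRel.Quotient G Z) = Quotient.mk'' x := by
    rintro x y ⟨g, hg⟩
    exact Quotient.sound (s := orbitRel G Z) ⟨g, hg⟩
  have key2 : ∀ x y : Z, (p x ↔ p y) →
      (Quotient.mk'' x : orbitRel.Quotient G Z) = Quotient.mk'' y := by
    intro x y hxy
    by_cases hx : p x
    · exact key y x (h1 y x (hxy.1 hx) hx)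
    · exact key y x (h2 y x (fun h => hx (hxy.2 h)) hx)
  by_cases ha : p a
  · by_cases hb : p b
    · exact hab (key2 a b (by tauto))
    · by_cases hc : p c
      · exact hac (key2 a c (by tauto))
      · exact hbc (key2 b c (by tauto))
  · by_cases hb : p b
    · by_cases hc : p c
      · exact hbc (key2 b c (by tauto))
      · exact hac (key2 a c (by tauto))
    · exact hab (key2 a b (by tauto))

end burnside

/-! ### points and hyperplanes -/

section sets
variable (F : Type) [Field F] (V : Type) [AddCommGroup V] [Module F V]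

/-- the set of points -/
def PX : Type := {x : Submodule F V // Pt x}
/-- the set of hyperplanes -/
def HX : Type := {x : Submodule F V // Hy x}

instance : MulAction (V ≃ₗ[F] V) (PX F V) where
  smul g x := ⟨im g x.1, Pt.im x.2⟩
  one_smul x := Subtype.ext (im_one x.1)
  mul_smul g h x := Subtype.ext (im_mul g h x.1)

instance : MulAction (V ≃ₗ[F] V) (HX F V) where
  smul g x := ⟨im g x.1, Hy.im x.2⟩
  one_smul x := Subtype.ext (im_one x.1)
  mul_smul g h x := Subtype.ext (im_mul g h x.1)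

instance [Finite F] [FiniteDimensional F V] : Finite (PX F V) :=
  inferInstanceAs (Finite {x : Submodule F V // Pt x})
instance [Finite F] [FiniteDimensional F V] : Finite (HX F V) :=
  inferInstanceAs (Finite {x : Submodule F V // Hy x})

end sets

section main
variable {F : Type} [Field F] {V : Type} [AddCommGroup V] [Module F V]

theorem coe_smul_PX (K : Subgroup (V ≃ₗ[F] V)) (g : K) (x : PX F V) :
    (g • x).1 = im (g : V ≃ₗ[F] V) x.1 := rfl
theorem coe_smul_HX (K : Subgroup (V ≃ₗ[F] V)) (g : K) (x : HX F V) :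
    (g • x).1 = im (g : V ≃ₗ[F] V) x.1 := rfl

theorem card_fix_PX (K : Subgroup (V ≃ₗ[F] V)) (g : K) :
    Nat.card (fixedBy (PX F V) g) =
      Nat.card {x : Submodule F V // Pt x ∧ im (g : V ≃ₗ[F] V) x = x} := by
  refine Nat.card_congr
    { toFun := fun z => ⟨z.1.1, z.1.2, congrArg Subtype.val z.2⟩
      invFun := fun w => ⟨⟨w.1, w.2.1⟩, Subtype.ext w.2.2⟩
      left_inv := fun z => rfl
      right_inv := fun w => rfl }

theorem card_fix_HX (K : Subgroup (V ≃ₗ[F] V)) (g : K) :
    Nat.card (fixedBy (HX F V) g) =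
      Nat.card {x : Submodule F V // Hy x ∧ im (g : V ≃ₗ[F] V) x = x} := by
  refine Nat.card_congr
    { toFun := fun z => ⟨z.1.1, z.1.2, congrArg Subtype.val z.2⟩
      invFun := fun w => ⟨⟨w.1, w.2.1⟩, Subtype.ext w.2.2⟩
      left_inv := fun z => rfl
      right_inv := fun w => rfl }

theorem exists_ne_pt [FiniteDimensional F V] (hn : 2 ≤ finrank F V) {x : Submodule F V}
    (hx : Pt x) : ∃ y, Pt y ∧ x ≠ y := by
  have h : ¬ (⊤ : Submodule F V) ≤ x := by
    intro h
    have h1 := Submodule.finrank_mono h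
    rw [finrank_top, hx] at h1
    omega
  obtain ⟨y, hy, _, h2⟩ := exists_pt_not_le h
  exact ⟨y, hy, fun he => h2 he.ge⟩

end main

theorem br2 (hfix : ∀ (F : Type) [Field F] [Finite F] (V : Type) [AddCommGroup V] [Module F V]
    [FiniteDimensional F V] (g : V ≃ₗ[F] V), Nat.card {x : Submodule F V // Pt x ∧ im g x = x} =
      Nat.card {H : Submodule F V // Hy H ∧ im g H = H}) : GL4.BR2 := by
  intro F _ _ V _ _ _ K hn hK
  have hpt : PtTrans K := by
    intro x y hx hy
    obtain ⟨x', hx', hxx'⟩ := exists_ne_pt hn hx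
    obtain ⟨y', hy', hyy'⟩ := exists_ne_pt hn hy
    obtain ⟨g, hg, h1, _⟩ := hK x x' y y' hx hx' hy hy' hxx' hyy'
    exact ⟨g, hg, h1⟩
  have hf : ∀ g : K, Nat.card (fixedBy (PX F V) g) = Nat.card (fixedBy (HX F V) g) := by
    intro g
    rw [card_fix_PX, card_fix_HX, hfix F V]
  -- two orbits on pairs of points
  have hXX : Nat.card (orbitRel.Quotient K (PX F V × PX F V)) ≤ 2 := by
    refine orb_le_two (fun z => z.1 = z.2) ?_ ?_
    · rintro ⟨x, y⟩ ⟨x', y'⟩ h h'
      dsimp at h h'
      subst h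
      subst h'
      obtain ⟨g, hg, h1⟩ := hpt x.1 x'.1 x.2 x'.2
      refine ⟨⟨g, hg⟩, Prod.ext (Subtype.ext h1) (Subtype.ext h1)⟩
    · rintro ⟨x, y⟩ ⟨x', y'⟩ h h'
      dsimp at h h'
      obtain ⟨g, hg, h1, h2⟩ := hK x.1 y.1 x'.1 y'.1 x.2 y.2 x'.2 y'.2
        (fun he => h (Subtype.ext he)) (fun he => h' (Subtype.ext he))
      refine ⟨⟨g, hg⟩, Prod.ext (Subtype.ext h1) (Subtype.ext h2)⟩
  have hXY : Nat.card (orbitRel.Quotient K (PX F V × HX F V)) ≤ 2 := by
    rw [← orb_prod_eq (PX F V) (HX F V) (PX F V) hf]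
    exact hXX
  have hYY : Nat.card (orbitRel.Quotient K (HX F V × HX F V)) ≤ 2 := by
    rw [← orb_prod_eq' (PX F V) (HX F V) (HX F V) hf]
    exact hXY
  refine ⟨?_, ?_, ?_⟩
  · intro x y x' y' hx hy hx' hy' hne hne'
    obtain ⟨g, hg⟩ := same_orbit (G := K) hYY (fun z => z.1 ≠ z.2) (by
        rintro g ⟨a, b⟩ hab he
        exact hab (smul_left_cancel g he))
      (a := ((⟨x, hx⟩, ⟨y, hy⟩) : HX F V × HX F V)) (b := ((⟨x', hx'⟩, ⟨y', hy'⟩) : HX F V × HX F V))
      (c := ((⟨x, hx⟩, ⟨x, hx⟩) : HX F V × HX F V))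
      (fun he => hne (congrArg Subtype.val he)) (fun he => hne' (congrArg Subtype.val he))
      (fun h => h rfl)
    exact ⟨g, g.2, congrArg Subtype.val (congrArg Prod.fst hg),
      congrArg Subtype.val (congrArg Prod.snd hg)⟩
  · intro x H x' H' hx hH hx' hH' hle hle'
    obtain ⟨u, hu, _, huH⟩ := exists_pt_not_le (U := (⊤ : Submodule F V)) (U' := H)
      (fun h => hH.ne_top (top_le_iff.1 h))
    obtain ⟨g, hg⟩ := same_orbit (G := K) hXY (fun z => z.1.1 ≤ z.2.1) (by
        rintro g ⟨a, b⟩ hab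
        exact im_mono (g : V ≃ₗ[F] V) hab)
      (a := ((⟨x, hx⟩, ⟨H, hH⟩) : PX F V × HX F V)) (b := ((⟨x', hx'⟩, ⟨H', hH'⟩) : PX F V × HX F V))
      (c := ((⟨u, hu⟩, ⟨H, hH⟩) : PX F V × HX F V)) hle hle' huH
    exact ⟨g, g.2, congrArg Subtype.val (congrArg Prod.fst hg),
      congrArg Subtype.val (congrArg Prod.snd hg)⟩
  · intro x H x' H' hx hH hx' hH' hle hle'
    have hHb : H ≠ ⊥ := by
      rintro rfl
      rw [Hy, finrank_bot] at hH
      omega
    obtain ⟨u, hu, huH⟩ := exists_pt_le hHb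
    obtain ⟨g, hg⟩ := same_orbit (G := K) hXY (fun z => ¬ z.1.1 ≤ z.2.1) (by
        rintro g ⟨a, b⟩ hab he
        exact hab ((im_le_im_iff (g : V ≃ₗ[F] V)).1 he))
      (a := ((⟨x, hx⟩, ⟨H, hH⟩) : PX F V × HX F V)) (b := ((⟨x', hx'⟩, ⟨H', hH'⟩) : PX F V × HX F V))
      (c := ((⟨u, hu⟩, ⟨H, hH⟩) : PX F V × HX F V)) hle hle' (fun h => h huH)
    exact ⟨g, g.2, congrArg Subtype.val (congrArg Prod.fst hg),
      congrArg Subtype.val (congrArg Prod.snd hg)⟩

end GL4.H69
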