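import Pool.Agent.Helper79.GL4.GoalsA
import Pool.Agent.Helper79.GL4.GoalsB

/-!
# GL4: packet M7 (MP_27a5f8_al): special lines of antiflag-transitive groups
-/

set_option linter.unusedVariables false

namespace GL4.H69m7

open Module Submodule

variable {F : Type} [Field F] {W : Type} [AddCommGroup W] [Module F W]

/-! ### counting -/

theorem card_lines_through [Finite F] [FiniteDimensional F W] {x : Submodule F W} (hx : Pt x) :
    Nat.card {M : Submodule F W // Ln M ∧ x ≤ M} = br (Nat.card F) (finrank F W - 1) := by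
  have h1 : finrank F (W ⧸ x) = finrank F W - 1 := by
    have h := Submodule.finrank_quotient_add_finrank x
    have hx' : finrank F x = 1 := hx
    omega
  rw [← h1, ← card_pts (F := F) (V := W ⧸ x)]
  refine Nat.card_congr
    { toFun := fun M => ⟨M.1.map x.mkQ, M.2.1.down M.2.2 hx⟩
      invFun := fun y => ⟨y.1.comap x.mkQ, y.2.up hx, le_up y.1⟩
      left_inv := fun M => Subtype.ext (up_down M.2.2)
      right_inv := fun y => Subtype.ext (down_up y.1) }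

theorem card_hys_not [Finite F] [FiniteDimensional F W] {x : Submodule F W} (hx : Pt x)
    (hm : 2 ≤ finrank F W) :
    Set.ncard {H : Submodule F W | Hy H ∧ ¬ x ≤ H} = Nat.card F ^ (finrank F W - 1) := by
  have hA : Set.ncard {H : Submodule F W | Hy H ∧ ⊥ ≤ H} = br (Nat.card F) (finrank F W) := by
    have h := card_hys_ge (F := F) (⊥ : Submodule F W)
    rw [finrank_bot, Nat.sub_zero] at h
    rw [← h, ← Nat.card_coe_set_eq]
    rfl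
  have hB : Set.ncard {H : Submodule F W | Hy H ∧ x ≤ H} = br (Nat.card F) (finrank F W - 1) := by
    have h := card_hys_ge (F := F) x
    have hx' : finrank F x = 1 := hx
    rw [hx'] at h
    rw [← h, ← Nat.card_coe_set_eq]
    rfl
  have hsub : {H : Submodule F W | Hy H ∧ x ≤ H} ⊆ {H : Submodule F W | Hy H ∧ ⊥ ≤ H} :=
    fun H h => ⟨h.1, bot_le⟩
  have hdiff : {H : Submodule F W | Hy H ∧ ¬ x ≤ H} =
      {H : Submodule F W | Hy H ∧ ⊥ ≤ H} \ {H : Submodule F W | Hy H ∧ x ≤ H} := by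
    ext H
    constructor
    · rintro ⟨h1, h2⟩
      exact ⟨⟨h1, bot_le⟩, fun h => h2 h.2⟩
    · rintro ⟨h1, h2⟩
      exact ⟨h1.1, fun h => h2 ⟨h1.1, h⟩⟩
  rw [hdiff, Set.ncard_sdiff hsub (Set.toFinite _), hA, hB]
  obtain ⟨j, hj⟩ : ∃ j, finrank F W = j + 1 := ⟨finrank F W - 1, by omega⟩
  rw [hj, br_succ, Nat.add_sub_cancel]
  omega

theorem not_dvd_br {p q k : ℕ} (hp : p.Prime) (hpq : p ∣ q) (hk : 1 ≤ k) : ¬ p ∣ br q k := by
  obtain ⟨j, rfl⟩ : ∃ j, k = j + 1 := ⟨k - 1, by omega⟩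
  rw [br_succ']
  intro h
  have h1 : p ∣ q * br q j := Dvd.dvd.mul_right hpq _
  have h2 : p ∣ 1 := (Nat.dvd_add_right h1).1 h
  exact hp.one_lt.ne' (Nat.dvd_one.1 h2)

/-! ### consequences of antiflag-transitivity -/

section anti
variable [FiniteDimensional F W] {G : Subgroup (W ≃ₗ[F] W)}

theorem exists_hy_not_ge_pt {x : Submodule F W} (hx : Pt x) : ∃ H, Hy H ∧ ¬ x ≤ H := by
  obtain ⟨H, h1, _, h3⟩ := exists_hy_not_ge (T := (⊥ : Submodule F W)) (U := x)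
    (fun h => hx.ne_bot (le_bot_iff.1 h))
  exact ⟨H, h1, h3⟩

theorem ptTrans (hG : AntiTrans G) : PtTrans G := by
  intro x y hx hy
  obtain ⟨H, h1, h2⟩ := exists_hy_not_ge_pt hx
  obtain ⟨H', h1', h2'⟩ := exists_hy_not_ge_pt hy
  obtain ⟨g, hg, h3, _⟩ := hG x H y H' hx h1 hy h1' h2 h2'
  exact ⟨g, hg, h3⟩

/-- the line through two of its points -/
theorem sup_eq {M x y : Submodule F W} (hM : Ln M) (hx : Pt x) (hy : Pt y) (hxM : x ≤ M)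
    (hyM : y ≤ M) (hne : x ≠ y) : x ⊔ y = M := by
  have h := ln_sup hx hy hne
  exact Submodule.eq_of_le_of_finrank_eq (sup_le hxM hyM) (by
    have h1 : finrank F ↥(x ⊔ y) = 2 := h
    have h2 : finrank F M = 2 := hM
    rw [h1, h2])

theorem not_ln_le_pt {M x : Submodule F W} (hM : Ln M) (hx : Pt x) : ¬ M ≤ x := by
  intro h
  have h1 := Submodule.finrank_mono h
  have h2 : finrank F M = 2 := hM
  have h3 : finrank F x = 1 := hx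
  omega

/-- (T1) -/
theorem t1 [Finite F] (hT : TRA) (hG : AntiTrans G) {x y z : Submodule F W} (hx : Pt x) (hy : Pt y)
    (hz : Pt z) (hyx : y ≠ x) (hzx : z ≠ x) (hle : z ≤ x ⊔ y) :
    ∃ g ∈ G, im g x = x ∧ im g y = z :=
  hT F W G x hx (fun H H' hH hH' h h' => by
    obtain ⟨g, hg, h1, h2⟩ := hG x H x H' hx hH hx hH' h h'
    exact ⟨g, hg, h1, h2⟩) y z hy hz hyx hzx hle

/-- third point on a line -/
theorem exists_third {M x y : Submodule F W} (hM : Ln M) (hx : Pt x) (hy : Pt y) :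
    ∃ z, Pt z ∧ z ≤ M ∧ z ≠ x ∧ z ≠ y := by
  obtain ⟨z, hz, hzM, h1, h2⟩ := exists_pt_not_le₂ (not_ln_le_pt hM hx) (not_ln_le_pt hM hy)
  exact ⟨z, hz, hzM, fun h => h1 h.le, fun h => h2 h.le⟩

/-- (T2), transitivity -/
theorem t2a [Finite F] (hT : TRA) (hG : AntiTrans G) {M x y : Submodule F W} (hM : Ln M)
    (hx : Pt x) (hy : Pt y) (hxM : x ≤ M) (hyM : y ≤ M) :
    ∃ g ∈ G, im g M = M ∧ im g x = y := by
  obtain ⟨z, hz, hzM, hzx, hzy⟩ := exists_third hM hx hy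
  have h1 : z ⊔ x = M := sup_eq hM hz hx hzM hxM hzx
  have h2 : z ⊔ y = M := sup_eq hM hz hy hzM hyM hzy
  obtain ⟨g, hg, h3, h4⟩ := t1 hT hG hz hx hy hzx.symm hzy.symm (by rw [h1]; exact hyM)
  refine ⟨g, hg, ?_, h4⟩
  rw [← h1, im_sup, h3, h4, h2, ← h1]

end anti

/-! ### special flags -/

/-- special flags: the orbit of `(x₁, M₁)` -/
def Sp (G : Subgroup (W ≃ₗ[F] W)) (x₁ M₁ x M : Submodule F W) : Prop :=
  ∃ g ∈ G, im g x₁ = x ∧ im g M₁ = M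

/-- the join of the special lines through `x` -/
def Nx (G : Subgroup (W ≃ₗ[F] W)) (x₁ M₁ x : Submodule F W) : Submodule F W :=
  sSup {M | Sp G x₁ M₁ x M}

theorem Sp.im {G : Subgroup (W ≃ₗ[F] W)} {x₁ M₁ x M : Submodule F W} (h : Sp G x₁ M₁ x M)
    {g : W ≃ₗ[F] W} (hg : g ∈ G) : Sp G x₁ M₁ (GL4.im g x) (GL4.im g M) := by
  obtain ⟨k, hk, h1, h2⟩ := h
  exact ⟨g * k, G.mul_mem hg hk, by rw [im_mul, h1], by rw [im_mul, h2]⟩

theorem Sp.le_Nx {G : Subgroup (W ≃ₗ[F] W)} {x₁ M₁ x M : Submodule F W} (h : Sp G x₁ M₁ x M) :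
    M ≤ Nx G x₁ M₁ x := le_sSup h

theorem im_Nx_le {G : Subgroup (W ≃ₗ[F] W)} {x₁ M₁ x : Submodule F W} {g : W ≃ₗ[F] W}
    (hg : g ∈ G) : im g (Nx G x₁ M₁ x) ≤ Nx G x₁ M₁ (im g x) := by
  rw [im, Submodule.map_le_iff_le_comap]
  refine sSup_le ?_
  intro M hM
  rw [← Submodule.map_le_iff_le_comap]
  exact (hM.im hg).le_Nx

theorem im_Nx {G : Subgroup (W ≃ₗ[F] W)} {x₁ M₁ x : Submodule F W} {g : W ≃ₗ[F] W}
    (hg : g ∈ G) : Nx G x₁ M₁ (im g x) = im g (Nx G x₁ M₁ x) := by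
  refine le_antisymm ?_ (im_Nx_le hg)
  have h := im_Nx_le (x₁ := x₁) (M₁ := M₁) (x := im g x) (G.inv_mem hg)
  rw [im_inv_im] at h
  have h2 := im_mono g h
  rwa [im_im_inv] at h2

section main
variable [Finite F] [FiniteDimensional F W] {G : Subgroup (W ≃ₗ[F] W)}

/-- the subgroup fixing `x` -/
def stab (G : Subgroup (W ≃ₗ[F] W)) (x : Submodule F W) : Subgroup (W ≃ₗ[F] W) where
  carrier := {g | g ∈ G ∧ im g x = x}
  one_mem' := ⟨G.one_mem, im_one x⟩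
  mul_mem' := by
    rintro a b ⟨ha, ha'⟩ ⟨hb, hb'⟩
    exact ⟨G.mul_mem ha hb, by rw [im_mul, hb', ha']⟩
  inv_mem' := by
    rintro a ⟨ha, ha'⟩
    exact ⟨G.inv_mem ha, im_inv_of_eq ha'⟩

attribute [local instance] GL4.subAct

/-- (1) -/
theorem step1 (hm : 2 ≤ finrank F W) (hG : AntiTrans G) :
    ∃ (x₁ M₁ : Submodule F W) (S : Subgroup (W ≃ₗ[F] W)), Pt x₁ ∧ Ln M₁ ∧ x₁ ≤ M₁ ∧ S ≤ G ∧
      (∀ s ∈ S, im s x₁ = x₁) ∧ (∀ s ∈ S, im s M₁ = M₁) ∧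
      ∀ H H', Hy H → Hy H' → ¬ x₁ ≤ H → ¬ x₁ ≤ H' → ∃ s ∈ S, im s H = H' := by
  have hF : Fintype F := Fintype.ofFinite F
  obtain ⟨p, hchar, e, hp, hcard⟩ := FiniteField.card' F
  have hpf : Fact p.Prime := ⟨hp⟩
  have hq : Nat.card F = p ^ (e : ℕ) := by rw [Nat.card_eq_fintype_card]; exact hcard
  have hpq : p ∣ Nat.card F := by rw [hq]; exact dvd_pow_self p e.ne_zero
  obtain ⟨S, hS⟩ := exists_isSyl (p := p) G
  -- fixed point
  obtain ⟨x₁, hx₁, hfix⟩ := exists_fixed (α := Submodule F W) hS.2.1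
    (X := {x : Submodule F W | Pt x}) (Set.toFinite _) (fun g _ x hx => Pt.im hx) (by
      have h : Set.ncard {x : Submodule F W | Pt x} = br (Nat.card F) (finrank F W) := by
        rw [← card_pts (F := F) (V := W), ← Nat.card_coe_set_eq]
        rfl
      rw [h]
      exact not_dvd_br hp hpq (by omega))
  have hx₁' : Pt x₁ := hx₁
  -- fixed line
  obtain ⟨M₁, hM₁, hfixM⟩ := exists_fixed (α := Submodule F W) hS.2.1
    (X := {M : Submodule F W | Ln M ∧ x₁ ≤ M}) (Set.toFinite _) (fun g hg M hM => by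
      refine ⟨Ln.im hM.1, ?_⟩
      have h1 := im_mono g hM.2
      have h2 : im g x₁ = x₁ := hfix g hg
      rwa [h2] at h1) (by
      have h : Set.ncard {M : Submodule F W | Ln M ∧ x₁ ≤ M} = br (Nat.card F) (finrank F W - 1) := by
        rw [← card_lines_through hx₁', ← Nat.card_coe_set_eq]
        rfl
      rw [h]
      exact not_dvd_br hp hpq (by omega))
  refine ⟨x₁, M₁, S, hx₁, hM₁.1, hM₁.2, hS.1, hfix, hfixM, ?_⟩
  have hSle : S ≤ stab G x₁ := fun s hs => ⟨hS.1 hs, hfix s hs⟩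
  have hst : stab G x₁ ≤ G := fun s hs => hs.1
  have hS' := hS.mono hSle hst
  have hncard : Set.ncard {H : Submodule F W | Hy H ∧ ¬ x₁ ≤ H} =
      p ^ ((e : ℕ) * (finrank F W - 1)) := by
    rw [card_hys_not hx₁' hm, hq, ← pow_mul]
  have key := trans_of_pow (α := Submodule F W) hSle hS'.2.2
    (X := {H : Submodule F W | Hy H ∧ ¬ x₁ ≤ H}) (Set.toFinite _) (by
      rintro g ⟨hg, hg'⟩ H ⟨h1, h2⟩
      refine ⟨Hy.im h1, fun h => h2 ?_⟩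
      have h3 : im g x₁ ≤ im g H := by rw [hg']; exact h
      exact (im_le_im_iff g).1 h3) (by
      rintro H ⟨h1, h2⟩ H' ⟨h1', h2'⟩
      obtain ⟨g, hg, h3, h4⟩ := hG x₁ H x₁ H' hx₁ h1 hx₁ h1' h2 h2'
      exact ⟨g, ⟨hg, h3⟩, h4⟩) hncard
  intro H H' hH hH' h h'
  exact key H ⟨hH, h⟩ H' ⟨hH', h'⟩

omit [Finite F] in
theorem inf_ln_hy {M H z : Submodule F W} (hM : Ln M) (hH : Hy H) (hz : Pt z) (hzM : z ≤ M)
    (hzH : z ≤ H) (h : ¬ M ≤ H) : M ⊓ H = z := by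
  have h1 := finrank_inf_hy hH h
  have h2 : finrank F M = 2 := hM
  have h3 : finrank F z = 1 := hz
  exact (Submodule.eq_of_le_of_finrank_eq (le_inf hzM hzH) (by omega)).symm

/-- (2) -/
theorem step2 (hT : TRA) (hG : AntiTrans G) {x₁ M₁ : Submodule F W} {S : Subgroup (W ≃ₗ[F] W)}
    (hx : Pt x₁) (hM : Ln M₁) (hxM : x₁ ≤ M₁) (hS : S ≤ G) (hSx : ∀ s ∈ S, im s x₁ = x₁)
    (hSM : ∀ s ∈ S, im s M₁ = M₁)
    (htr : ∀ H H', Hy H → Hy H' → ¬ x₁ ≤ H → ¬ x₁ ≤ H' → ∃ s ∈ S, im s H = H')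
    {K₁ K₂ : Submodule F W} (hK₁ : Hy K₁) (hK₂ : Hy K₂) (hxK₁ : x₁ ≤ K₁) (hxK₂ : x₁ ≤ K₂)
    (hMK₁ : ¬ M₁ ≤ K₁) (hMK₂ : ¬ M₁ ≤ K₂) :
    ∃ g ∈ G, im g x₁ = x₁ ∧ im g M₁ = M₁ ∧ im g K₁ = K₂ := by
  obtain ⟨z, hz, hzM, hzx, _⟩ := exists_third hM hx hx
  obtain ⟨g, hg, hgM, hgx⟩ := t2a hT hG hM hx hz hxM hzM
  have hsup : x₁ ⊔ z = M₁ := sup_eq hM hx hz hxM hzM hzx.symm
  have hn : ∀ K : Submodule F W, x₁ ≤ K → ¬ M₁ ≤ K → z ≤ im g K ∧ ¬ x₁ ≤ im g K ∧ ¬ M₁ ≤ im g K := by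
    intro K h1 h2
    have h3 : z ≤ im g K := by rw [← hgx]; exact im_mono g h1
    have h4 : ¬ M₁ ≤ im g K := by
      intro h
      apply h2
      rw [← im_le_im_iff g, hgM]
      exact h
    refine ⟨h3, fun h => h4 ?_, h4⟩
    rw [← hsup]
    exact sup_le h h3
  obtain ⟨a1, a2, a3⟩ := hn K₁ hxK₁ hMK₁
  obtain ⟨b1, b2, b3⟩ := hn K₂ hxK₂ hMK₂
  obtain ⟨s, hs, hsH⟩ := htr (im g K₁) (im g K₂) (Hy.im hK₁) (Hy.im hK₂) a2 b2
  have hsz : im s z = z := by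
    have h1 : M₁ ⊓ im g K₁ = z := inf_ln_hy hM (Hy.im hK₁) hz hzM a1 a3
    have h2 : M₁ ⊓ im g K₂ = z := inf_ln_hy hM (Hy.im hK₂) hz hzM b1 b3
    rw [← h1, im_inf, hSM s hs, hsH, h2, h1]
  refine ⟨g⁻¹ * s * g, G.mul_mem (G.mul_mem (G.inv_mem hg) (hS hs)) hg, ?_, ?_, ?_⟩
  · rw [im_mul, im_mul, hgx, hsz]
    exact im_inv_of_eq hgx
  · rw [im_mul, im_mul, hgM, hSM s hs]
    exact im_inv_of_eq hgM
  · rw [im_mul, im_mul, hsH, im_inv_im]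

omit [Finite F] [FiniteDimensional F W] in
/-- (2) for every special flag -/
theorem step2' {x₁ M₁ : Submodule F W}
    (h2 : ∀ K₁ K₂ : Submodule F W, Hy K₁ → Hy K₂ → x₁ ≤ K₁ → x₁ ≤ K₂ → ¬ M₁ ≤ K₁ → ¬ M₁ ≤ K₂ →
      ∃ g ∈ G, im g x₁ = x₁ ∧ im g M₁ = M₁ ∧ im g K₁ = K₂)
    {x M : Submodule F W} (hS : Sp G x₁ M₁ x M) {K₁ K₂ : Submodule F W} (hK₁ : Hy K₁)
    (hK₂ : Hy K₂) (hxK₁ : x ≤ K₁) (hxK₂ : x ≤ K₂) (hMK₁ : ¬ M ≤ K₁) (hMK₂ : ¬ M ≤ K₂) :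
    ∃ g ∈ G, im g x = x ∧ im g M = M ∧ im g K₁ = K₂ := by
  obtain ⟨k, hk, rfl, rfl⟩ := hS
  have hn : ∀ K A : Submodule F W, im k A ≤ K ↔ A ≤ im k⁻¹ K := by
    intro K A
    rw [← im_le_im_iff k (P := A), im_im_inv]
  obtain ⟨g, hg, a1, a2, a3⟩ := h2 (im k⁻¹ K₁) (im k⁻¹ K₂) (Hy.im hK₁) (Hy.im hK₂)
    ((hn _ _).1 hxK₁) ((hn _ _).1 hxK₂) (fun h => hMK₁ ((hn _ _).2 h))
    (fun h => hMK₂ ((hn _ _).2 h))
  refine ⟨k * g * k⁻¹, G.mul_mem (G.mul_mem hk hg) (G.inv_mem hk), ?_, ?_, ?_⟩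
  · rw [im_mul, im_mul, im_inv_im, a1]
  · rw [im_mul, im_mul, im_inv_im, a2]
  · rw [im_mul, im_mul, a3, im_im_inv]

/-- (4) -/
theorem step4 {x₁ M₁ : Submodule F W} (hM₁ : Ln M₁)
    (h2 : ∀ K₁ K₂ : Submodule F W, Hy K₁ → Hy K₂ → x₁ ≤ K₁ → x₁ ≤ K₂ → ¬ M₁ ≤ K₁ → ¬ M₁ ≤ K₂ →
      ∃ g ∈ G, im g x₁ = x₁ ∧ im g M₁ = M₁ ∧ im g K₁ = K₂)
    {x H₁ H₂ : Submodule F W} (hx : Pt x) (hH₁ : Hy H₁) (hH₂ : Hy H₂) (hx₁ : x ≤ H₁) (hx₂ : x ≤ H₂)
    (hN₁ : ¬ Nx G x₁ M₁ x ≤ H₁) (hN₂ : ¬ Nx G x₁ M₁ x ≤ H₂) :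
    ∃ g ∈ G, im g x = x ∧ im g H₁ = H₂ := by
  have hex : ∀ H : Submodule F W, ¬ Nx G x₁ M₁ x ≤ H → ∃ M, Sp G x₁ M₁ x M ∧ ¬ M ≤ H := by
    intro H h
    by_contra hc
    push Not at hc
    exact h (sSup_le fun M hM => hc M hM)
  obtain ⟨M, hM, hMH⟩ := hex H₁ hN₁
  obtain ⟨M', hM', hMH'⟩ := hex H₂ hN₂
  have hLn : ∀ M, Sp G x₁ M₁ x M → Ln M := by
    rintro M ⟨g, _, _, rfl⟩
    exact Ln.im hM₁
  obtain ⟨H₃, hH₃, hx₃, h3, h3'⟩ := exists_hy_not_ge₂ (T := x) (not_ln_le_pt (hLn M hM) hx)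
    (not_ln_le_pt (hLn M' hM') hx)
  obtain ⟨g, hg, a1, _, a3⟩ := step2' h2 hM hH₁ hH₃ hx₁ hx₃ hMH h3
  obtain ⟨g', hg', b1, _, b3⟩ := step2' h2 hM' hH₃ hH₂ hx₃ hx₂ h3' hMH'
  exact ⟨g' * g, G.mul_mem hg' hg, by rw [im_mul, a1, b1], by rw [im_mul, a3, b3]⟩

/-- (5) -/
theorem step5 (hB : BR1) {x N : Submodule F W} (hx : Pt x) (hxN : x ≤ N)
    (hN : ∀ g ∈ G, im g x = x → im g N = N)
    (h4 : ∀ H₁ H₂ : Submodule F W, Hy H₁ → Hy H₂ → x ≤ H₁ → x ≤ H₂ → ¬ N ≤ H₁ → ¬ N ≤ H₂ →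
      ∃ g ∈ G, im g x = x ∧ im g H₁ = H₂)
    {M M' : Submodule F W} (hM : Ln M) (hM' : Ln M') (hxM : x ≤ M) (hxM' : x ≤ M')
    (hMN : M ≤ N) (hMN' : M' ≤ N) : ∃ g ∈ G, im g x = x ∧ im g M = M' := by
  set U : Submodule F (W ⧸ x) := N.map x.mkQ with hU
  have hHy : HyTrans (sGrp (qGrp G x) U) := by
    intro a b ha hb
    -- a hyperplane of `W` inducing `a`
    have hlift : ∀ a : Submodule F U, Hy a → ∃ H : Submodule F W, Hy H ∧ x ≤ H ∧ ¬ N ≤ H ∧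
        (H.map x.mkQ).comap U.subtype = a := by
      intro a ha
      have h1 : ¬ U ≤ a.map U.subtype := by
        intro h
        have h2 := Submodule.finrank_mono h
        rw [finrank_incl] at h2
        have h3 : finrank F a + 1 = finrank F U := ha
        omega
      obtain ⟨H', hH', hle, hnot⟩ := exists_hy_not_ge h1
      have h2 : U ⊓ H' = a.map U.subtype := by
        have h3 := finrank_inf_hy hH' hnot
        refine (Submodule.eq_of_le_of_finrank_eq (le_inf (incl_le a) hle) ?_).symm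
        rw [finrank_incl]
        have h4 : finrank F a + 1 = finrank F U := ha
        omega
      refine ⟨H'.comap x.mkQ, Hy.up hH', le_up H', ?_, ?_⟩
      · intro h
        apply hnot
        rw [hU, down_le_iff]
        exact h
      · rw [down_up]
        have h3 : H'.comap U.subtype = (U ⊓ H').comap U.subtype := by
          rw [Submodule.comap_inf, Submodule.comap_subtype_self, top_inf_eq]
        rw [h3, h2, restr_incl]
    obtain ⟨H₁, hH₁, hx₁, hn₁, e₁⟩ := hlift a ha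
    obtain ⟨H₂, hH₂, hx₂, hn₂, e₂⟩ := hlift b hb
    obtain ⟨k, hk, hkx, hkH⟩ := h4 H₁ H₂ hH₁ hH₂ hx₁ hx₂ hn₁ hn₂
    obtain ⟨g, hg, hgk⟩ := exists_qGrp hk hkx
    have hgU : im g U = U := by
      rw [hU, im_down hgk, hN k hk hkx]
    obtain ⟨h, hh, hhg⟩ := exists_sGrp hg hgU
    refine ⟨h, hh, ?_⟩
    have h5 : (H₁.map x.mkQ).comap U.subtype = (U ⊓ H₁.map x.mkQ).comap U.subtype := by
      rw [Submodule.comap_inf, Submodule.comap_subtype_self, top_inf_eq]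
    have h6 : (H₂.map x.mkQ).comap U.subtype = (U ⊓ H₂.map x.mkQ).comap U.subtype := by
      rw [Submodule.comap_inf, Submodule.comap_subtype_self, top_inf_eq]
    rw [← e₁, ← e₂, h5, h6, im_restr hgU hhg inf_le_left, im_inf, hgU, im_down hgk, hkH]
  have hPt : PtTrans (sGrp (qGrp G x) U) := (hB F U _).2 hHy
  have hpt : ∀ M : Submodule F W, Ln M → x ≤ M → M ≤ N →
      Pt ((M.map x.mkQ).comap U.subtype) ∧ M.map x.mkQ ≤ U := by
    intro M hM hxM hMN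
    have h1 : M.map x.mkQ ≤ U := Submodule.map_mono hMN
    refine ⟨?_, h1⟩
    rw [Pt, finrank_restr h1]
    exact hM.down hxM hx
  obtain ⟨p1, l1⟩ := hpt M hM hxM hMN
  obtain ⟨p2, l2⟩ := hpt M' hM' hxM' hMN'
  obtain ⟨h, ⟨g, ⟨k, hk, hkx, hgk⟩, hgU, hhg⟩, hh⟩ := hPt _ _ p1 p2
  refine ⟨k, hk, hkx, ?_⟩
  have h1 := congrArg (fun Z => Submodule.map U.subtype Z) hh
  rw [im_incl hhg, incl_restr l1, incl_restr l2, im_down hgk] at h1
  have h2 : x ≤ im k M := by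
    have := im_mono k hxM
    rwa [hkx] at this
  exact (down_inj h2 hxM').1 h1

end main

theorem m7 (hB : BR1) (hT : TRA) : M7 := by
  intro F _ _ W _ _ _ G hm hG
  obtain ⟨x₁, M₁, S, hx₁, hM₁, hxM₁, hSG, hSx, hSM, htr⟩ := step1 hm hG
  have h2 : ∀ K₁ K₂ : Submodule F W, Hy K₁ → Hy K₂ → x₁ ≤ K₁ → x₁ ≤ K₂ → ¬ M₁ ≤ K₁ →
      ¬ M₁ ≤ K₂ → ∃ g ∈ G, im g x₁ = x₁ ∧ im g M₁ = M₁ ∧ im g K₁ = K₂ :=
    fun K₁ K₂ a b c d e f => step2 hT hG hx₁ hM₁ hxM₁ hSG hSx hSM htr a b c d e f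
  have hpt : PtTrans G := ptTrans hG
  -- a special line through every point
  have hexSp : ∀ x, Pt x → ∃ M, Sp G x₁ M₁ x M := by
    intro x hx
    obtain ⟨g, hg, h⟩ := hpt x₁ x hx₁ hx
    exact ⟨im g M₁, g, hg, h, rfl⟩
  have hSpLn : ∀ x M, Sp G x₁ M₁ x M → Ln M ∧ x ≤ M := by
    rintro x M ⟨g, _, rfl, rfl⟩
    exact ⟨Ln.im hM₁, im_mono g hxM₁⟩
  have hself : ∀ x, Pt x → x ≤ Nx G x₁ M₁ x := by
    intro x hx
    obtain ⟨M, hM⟩ := hexSp x hx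
    exact (hSpLn x M hM).2.trans hM.le_Nx
  have htrNH : ∀ x H₁ H₂, Pt x → Hy H₁ → Hy H₂ → x ≤ H₁ → x ≤ H₂ → ¬ Nx G x₁ M₁ x ≤ H₁ →
      ¬ Nx G x₁ M₁ x ≤ H₂ → ∃ g ∈ G, im g x = x ∧ im g H₁ = H₂ :=
    fun x H₁ H₂ a b c d e f g => step4 hM₁ h2 a b c d e f g
  have h5 : ∀ x, Pt x → ∀ M M', Ln M → Ln M' → x ≤ M → x ≤ M' → M ≤ Nx G x₁ M₁ x →
      M' ≤ Nx G x₁ M₁ x → ∃ g ∈ G, im g x = x ∧ im g M = M' := by
    intro x hx M M' hM hM' hxM hxM' hMN hMN'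
    exact step5 hB hx (hself x hx) (fun g hg h => by rw [← im_Nx hg, h])
      (fun H₁ H₂ b c d e f g => htrNH x H₁ H₂ hx b c d e f g) hM hM' hxM hxM' hMN hMN'
  have hall : ∀ x, Pt x → ∀ M, Ln M → x ≤ M → M ≤ Nx G x₁ M₁ x → Sp G x₁ M₁ x M := by
    intro x hx M hM hxM hMN
    obtain ⟨M₀, hM₀⟩ := hexSp x hx
    obtain ⟨g, hg, a, b⟩ := h5 x hx M₀ M (hSpLn x M₀ hM₀).1 hM (hSpLn x M₀ hM₀).2 hxM
      hM₀.le_Nx hMN
    have := hM₀.im hg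
    rwa [a, b] at this
  have hdim1 : 2 ≤ finrank F (Nx G x₁ M₁ x₁) := by
    have h : Sp G x₁ M₁ x₁ M₁ := ⟨1, G.one_mem, im_one _, im_one _⟩
    have h1 := Submodule.finrank_mono h.le_Nx
    have h3 : finrank F M₁ = 2 := hM₁
    omega
  refine ⟨finrank F (Nx G x₁ M₁ x₁) - 1, Nx G x₁ M₁, ?_⟩
  refine
    { n1 := by omega
      dimN := ?_
      selfN := hself
      symN := ?_
      eqN := fun g hg x _ => im_Nx hg
      trN := ?_
      trNH := htrNH }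
  · intro x hx
    obtain ⟨g, hg, h⟩ := hpt x₁ x hx₁ hx
    rw [← h, im_Nx hg, finrank_im]
    omega
  · intro x y hx hy hyN
    by_cases hne : y = x
    · rw [hne]; exact hself x hx
    · have hL : Ln (x ⊔ y) := ln_sup hx hy (fun h => hne h.symm)
      have hSp := hall x hx (x ⊔ y) hL le_sup_left (sup_le (hself x hx) hyN)
      obtain ⟨g, hg, hgM, hgx⟩ := t2a hT hG hL hx hy le_sup_left le_sup_right
      have h := hSp.im hg
      rw [hgM, hgx] at h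
      exact le_sup_left.trans h.le_Nx
  · intro x y z hx hy hz hyN hzN hyx hzx
    have hL : Ln (x ⊔ y) := ln_sup hx hy (fun h => hyx h.symm)
    have hL' : Ln (x ⊔ z) := ln_sup hx hz (fun h => hzx h.symm)
    obtain ⟨g, hg, a, b⟩ := h5 x hx _ _ hL hL' le_sup_left le_sup_left
      (sup_le (hself x hx) hyN) (sup_le (hself x hx) hzN)
    rw [im_sup, a] at b
    have hyx' : im g y ≠ x := by
      intro h
      apply hyx
      rw [← im_inj g, h, a]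
    obtain ⟨g', hg', c, d⟩ := t1 hT hG hx (Pt.im hy) hz hyx' hzx (by rw [b]; exact le_sup_right)
    exact ⟨g' * g, G.mul_mem hg' hg, by rw [im_mul, a, c], by rw [im_mul, d]⟩

end GL4.H69m7
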